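import Pool.Agent.Helper12.TS.St
import Pool.Agent.Helper41.AJ.M_CON
import Pool.Agent.Helper51.AJ.Basic

set_option autoImplicit false

/-!
# Project TS (MP_d63854_co), module RTP: partitions of a component
-/

namespace Pool.Agent.Helper23.TS

open Pool.Agent.Helper12.TS
open Pool.Agent.Helper51.AJ (IsMinor Planar Apex ExMinor Con Tch)
open Pool.Agent.Helper12.NK (rst Kc add)

/-- at most one element of `S` touches `Y` -/
private def P1 {V : Type} (G : SimpleGraph V) (S Y : Set V) : Prop :=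
  ∃ t ∈ S, ∀ s ∈ S, Tch G {s} Y → s = t

/-- two elements of `S` touch `Y` -/
private lemma P2_of {V : Type} {G : SimpleGraph V} {S Y : Set V} (hS : S.Nonempty)
    (h : ¬ P1 G S Y) : ∃ a ∈ S, ∃ b ∈ S, a ≠ b ∧ Tch G {a} Y ∧ Tch G {b} Y := by
  unfold P1 at h
  push Not at h
  obtain ⟨s, hs⟩ := hS
  obtain ⟨a, ha, ha1, -⟩ := h s hs
  obtain ⟨b, hb, hb1, hb2⟩ := h a ha
  exact ⟨a, ha, b, hb, hb2.symm, ha1, hb1⟩

/-- a bipartition of `C` into connected sets -/
private structure BP {V : Type} (G : SimpleGraph V) (C Y Z : Set V) : Prop where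
  un : Y ∪ Z = C
  dis : Disjoint Y Z
  cy : Con G Y
  cz : Con G Z

private lemma BP.symm {V : Type} {G : SimpleGraph V} {C Y Z : Set V} (h : BP G C Y Z) :
    BP G C Z Y := ⟨by rw [Set.union_comm]; exact h.un, h.dis.symm, h.cz, h.cy⟩

private lemma third {V : Type} {S : Set V} (hS : S.ncard = 3) {a b : V} (ha : a ∈ S) (hb : b ∈ S)
    (hab : a ≠ b) : ∃ k ∈ S, k ≠ a ∧ k ≠ b ∧ ∀ s ∈ S, s = a ∨ s = b ∨ s = k := by
  obtain ⟨x, y, z, hxy, hxz, hyz, rfl⟩ := Set.ncard_eq_three.1 hS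
  simp only [Set.mem_insert_iff, Set.mem_singleton_iff] at ha hb ⊢
  rcases ha with rfl | rfl | rfl <;> rcases hb with rfl | rfl | rfl
  · exact absurd rfl hab
  · exact ⟨z, by tauto, hxz.symm, hyz.symm, by tauto⟩
  · exact ⟨y, by tauto, hxy.symm, hyz, by tauto⟩
  · exact ⟨z, by tauto, hyz.symm, hxz.symm, by tauto⟩
  · exact absurd rfl hab
  · exact ⟨x, by tauto, hxy, hxz, by tauto⟩
  · exact ⟨y, by tauto, hyz, hxy.symm, by tauto⟩
  · exact ⟨x, by tauto, hxz, hxy, by tauto⟩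
  · exact absurd rfl hab

theorem hRTP : StCMP → StRTP := by
  intro hCMP V _ G S C hK hS hC hcard
  obtain ⟨c1, c2, c3, c4, c5, c6, c7⟩ := hCMP V G S
  have hcon := Pool.Agent.Helper41.AJ.hCON V G
  have hSne : S.Nonempty := by
    rw [← Set.ncard_pos (Set.toFinite S)]; omega
  have hCS : Disjoint C S := hC.1
  have hCc : Con G C := hC.2.1
  have hcl : ∀ x ∈ C, ∀ y, y ∉ S → G.Adj x y → y ∈ C := hC.2.2
  have hTC : ∀ s ∈ S, Tch G {s} C := c4 hK hS C hC
  have cmp6 := c6 hK hS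
  -- neighbours of subsets of C
  have hnb : ∀ Y : Set V, Y ⊆ C → ∀ x ∈ Y, ∀ w, G.Adj x w → (w ∈ S ∧ Tch G {w} Y) ∨ w ∈ C := by
    intro Y hY x hx w hxw
    by_cases hw : w ∈ S
    · exact Or.inl ⟨hw, w, rfl, x, hx, hxw.symm⟩
    · exact Or.inr (hcl x (hY hx) w hw hxw)
  have htch : ∀ Y Z, BP G C Y Z → Tch G Y Z := by
    intro Y Z h
    have hne : Y ≠ C := by
      intro he
      obtain ⟨z, hz⟩ := Pool.Agent.Helper51.AJ.con_nonempty h.cz
      have : z ∈ Y := by rw [he, ← h.un]; exact Or.inr hz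
      exact Set.disjoint_left.1 h.dis this hz
    have h1 := (hcon C hCc).1 Y (by rw [← h.un]; exact Set.subset_union_left)
      (Pool.Agent.Helper51.AJ.con_nonempty h.cy) hne
    refine Pool.Agent.Helper51.AJ.tch_mono h1 subset_rfl ?_
    intro z hz
    rw [← h.un] at hz
    rcases hz.1 with h2 | h2
    · exact absurd h2 hz.2
    · exact h2
  by_cases hcase : ∃ Y Z, BP G C Y Z ∧ ¬ P1 G S Y ∧ ¬ P1 G S Z
  · -- case 1
    obtain ⟨Y, Z, hBP, hY, hZ⟩ := hcase
    left
    obtain ⟨a, ha, b, hb, hab, haY, hbY⟩ := P2_of hSne hY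
    obtain ⟨a', ha', b', hb', hab', haZ, hbZ⟩ := P2_of hSne hZ
    by_cases hi : ∃ i ∈ S, ¬ Tch G {i} Y
    · obtain ⟨i, hiS, hiY⟩ := hi
      have hia : i ≠ a := by rintro rfl; exact hiY haY
      have hib : i ≠ b := by rintro rfl; exact hiY hbY
      obtain ⟨k, hk, hka, hkb, hall⟩ := third hS ha hb hab
      have hik : i = k := by
        rcases hall i hiS with h | h | h
        · exact absurd h hia
        · exact absurd h hib
        · exact h
      refine ⟨Y, Z, hBP.un, hBP.dis, hBP.cy, hBP.cz, htch Y Z hBP, i, hiS, ?_, ?_, ?_⟩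
      · obtain ⟨s, hs, x, hx, hsx⟩ := hTC i hiS
        rw [Set.mem_singleton_iff] at hs
        subst hs
        rw [← hBP.un] at hx
        rcases hx with hx | hx
        · exact absurd ⟨s, rfl, x, hx, hsx⟩ hiY
        · exact ⟨s, rfl, x, hx, hsx⟩
      · intro s hs hsi
        rcases hall s hs with h | h | h
        · rw [h]; exact haY
        · rw [h]; exact hbY
        · exact absurd (h.trans hik.symm) hsi
      · by_cases h : a' = i
        · refine ⟨b', hb', ?_, hbZ⟩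
          rw [← h]; exact hab'.symm
        · exact ⟨a', ha', h, haZ⟩
    · push Not at hi
      exact ⟨Y, Z, hBP.un, hBP.dis, hBP.cy, hBP.cz, htch Y Z hBP, a', ha', haZ,
        fun s hs _ => hi s hs, b', hb', hab'.symm, hbZ⟩
  · -- case 2
    right
    push Not at hcase
    have hcase' : ∀ Y Z, BP G C Y Z → P1 G S Y ∨ P1 G S Z := by
      intro Y Z h
      by_cases h1 : P1 G S Y
      · exact Or.inl h1
      · exact Or.inr (hcase Y Z h h1)
    obtain ⟨x, y, hx, hy, hxy⟩ := (Set.one_lt_ncard_iff (Set.toFinite C)).1 (by omega)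
    obtain ⟨P, Q, hPQ, hdPQ, -, -, hP, hQ, -⟩ := (hcon C hCc).2.2 x hx y hy hxy
    have hex : {Y : Set V | ∃ Z, BP G C Y Z ∧ P1 G S Y}.Nonempty := by
      have hB : BP G C P Q := ⟨hPQ, hdPQ, hP, hQ⟩
      rcases hcase' P Q hB with h | h
      · exact ⟨P, Q, hB, h⟩
      · exact ⟨Q, P, hB.symm, h⟩
    obtain ⟨Y, ⟨Z, hBP, hPY⟩, hmax⟩ := Set.exists_max_image _ Set.ncard
      (Set.toFinite {Y : Set V | ∃ Z, BP G C Y Z ∧ P1 G S Y}) hex
    have hmax' : ∀ Y' Z', BP G C Y' Z' → Y ⊂ Y' → P1 G S Z' := by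
      intro Y' Z' h hlt
      rcases hcase' Y' Z' h with h1 | h1
      · have h2 := hmax Y' ⟨Z', h, h1⟩
        have h3 := Set.ncard_lt_ncard hlt (Set.toFinite Y')
        omega
      · exact h1
    obtain ⟨t₀, ht₀, hY0⟩ := hPY
    have hYC : Y ⊆ C := by rw [← hBP.un]; exact Set.subset_union_left
    have hZC : Z ⊆ C := by rw [← hBP.un]; exact Set.subset_union_right
    have hYS : Disjoint Y S := Set.disjoint_of_subset_left hYC hCS
    have hZS : Disjoint Z S := Set.disjoint_of_subset_left hZC hCS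
    have hYne := Pool.Agent.Helper51.AJ.con_nonempty hBP.cy
    have hZne := Pool.Agent.Helper51.AJ.con_nonempty hBP.cz
    have hYZ : ∀ w ∈ Y, w ∉ Z := fun w h h' => Set.disjoint_left.1 hBP.dis h h'
    have hSC : ∀ s ∈ S, s ∉ C := fun s h h' => Set.disjoint_left.1 hCS h' h
    -- (0) leaving Y without z and t₀ leads to Z
    have hleaveY : ∀ z ∈ Z, ∃ x ∈ Y, ∃ w ∈ Z, w ≠ z ∧ G.Adj x w := by
      intro z hz
      obtain ⟨x, hx, w, hwY, hwz, hwt, hxw⟩ := cmp6 Y hYS hYne z t₀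
        (fun h => hYZ z h hz) (fun h => hSC t₀ ht₀ (hYC h))
      refine ⟨x, hx, w, ?_, hwz, hxw⟩
      rcases hnb Y hYC x hx w hxw with h | h
      · exact absurd (hY0 w h.1 h.2) hwt
      · rw [← hBP.un] at h
        rcases h with h | h
        · exact absurd h hwY
        · exact h
    -- (a)
    have hZ2 : ∀ z ∈ Z, ∃ w ∈ Z, w ≠ z := by
      intro z hz
      obtain ⟨_, _, w, hw, hwz, _⟩ := hleaveY z hz
      exact ⟨w, hw, hwz⟩
    -- (b)
    have hclaim : ∃ z ∈ Z, Tch G {z} Y ∧ Con G (Z \ {z}) := by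
      by_contra hno
      push Not at hno
      have hcmpsub : ∀ z K, Cmp G (Z \ {z})ᶜ K → K ⊆ Z \ {z} := by
        intro z K hK' w hw
        by_contra hcon'
        exact Set.disjoint_left.1 hK'.1 hw hcon'
      have hexK : {K : Set V | ∃ z ∈ Z, Tch G {z} Y ∧ Cmp G (Z \ {z})ᶜ K ∧
          K ≠ Z \ {z}}.Nonempty := by
        obtain ⟨y, hy, z, hz, hyz⟩ := htch Y Z hBP
        obtain ⟨w, hw, hwz⟩ := hZ2 z hz
        have hzY : Tch G {z} Y := ⟨z, rfl, y, hy, hyz.symm⟩
        obtain ⟨K, hK', hwK⟩ := (hCMP V G (Z \ {z})ᶜ).1 w (by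
          rw [Set.notMem_compl_iff]; exact ⟨hw, hwz⟩)
        refine ⟨K, z, hz, hzY, hK', ?_⟩
        intro he
        apply hno z hz hzY
        rw [← he]
        exact hK'.2.1
      obtain ⟨K, ⟨z, hz, hzY, hK', hKne⟩, hmin⟩ := Set.exists_min_image _ Set.ncard
        (Set.toFinite _) hexK
      have hKsub := hcmpsub z K hK'
      have hKZ : K ⊆ Z := fun w hw => (hKsub hw).1
      have hzK : z ∉ K := fun h => (hKsub h).2 rfl
      obtain ⟨-, hZK⟩ := (hCMP V G S).2.2.2.2.2.2 Z K z hBP.cz hz hK'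
      have hBP' : BP G C (Y ∪ (Z \ K)) K := by
        refine ⟨?_, ?_, ?_, hK'.2.1⟩
        · rw [Set.union_assoc, Set.diff_union_of_subset hKZ]
          exact hBP.un
        · rw [Set.disjoint_union_left]
          exact ⟨Set.disjoint_of_subset_right hKZ hBP.dis, Set.disjoint_sdiff_left⟩
        · refine Pool.Agent.Helper51.AJ.con_union hBP.cy hZK ?_
          obtain ⟨z', hz', y, hy, h⟩ := hzY
          rw [Set.mem_singleton_iff] at hz'
          subst hz'
          exact ⟨y, hy, z', ⟨hz, hzK⟩, h.symm⟩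
      have hlt : Y ⊂ Y ∪ (Z \ K) := by
        refine ⟨Set.subset_union_left, fun h => ?_⟩
        have : z ∈ Y := h (Or.inr ⟨hz, hzK⟩)
        exact hYZ z this hz
      obtain ⟨t₁, ht₁, hK1⟩ := hmax' _ _ hBP' hlt
      obtain ⟨x, hx, w, hwK, hwz, hwt, hxw⟩ := cmp6 K
        (Set.disjoint_of_subset_left hKZ hZS) (Pool.Agent.Helper51.AJ.con_nonempty hK'.2.1) z t₁
        hzK (fun h => hSC t₁ ht₁ (hZC (hKZ h)))
      have hwY : w ∈ Y := by
        rcases hnb K (hKZ.trans hZC) x hx w hxw with h | h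
        · exact absurd (hK1 w h.1 h.2) hwt
        · rw [← hBP.un] at h
          rcases h with h | h
          · exact h
          · exfalso
            apply hwK
            exact hK'.2.2 x hx w (by rw [Set.notMem_compl_iff]; exact ⟨h, hwz⟩) hxw
      have hxZ : x ∈ Z := hKZ hx
      have hxY : Tch G {x} Y := ⟨x, rfl, w, hwY, hxw⟩
      have hnc := hno x hxZ hxY
      have hzx : z ≠ x := by rintro rfl; exact hzK hx
      obtain ⟨d1, d2, d3, -⟩ := hCMP V G (Z \ {x})ᶜ
      obtain ⟨K0, hK0, hzK0⟩ := d1 z (by rw [Set.notMem_compl_iff]; exact ⟨hz, hzx⟩)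
      have hK0sub := hcmpsub x K0 hK0
      have hZKsub : Z \ K ⊆ K0 := by
        apply d3 K0 (Z \ K) hK0 hZK
        · rw [Set.disjoint_left]
          intro a ha ha'
          exact ha' ⟨ha.1, fun h => ha.2 (by rw [Set.mem_singleton_iff] at h; rw [h]; exact hx)⟩
        · exact ⟨z, ⟨hz, hzK⟩, hzK0⟩
      have hK0ne : K0 ≠ Z \ {x} := by
        intro he
        apply hnc
        rw [← he]
        exact hK0.2.1
      obtain ⟨y', hy', hy'K0⟩ : ∃ y' ∈ Z \ {x}, y' ∉ K0 := by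
        by_contra hcon'
        push Not at hcon'
        exact hK0ne (Set.Subset.antisymm hK0sub hcon')
      obtain ⟨K', hKc, hy'K'⟩ := d1 y' (by rw [Set.notMem_compl_iff]; exact hy')
      have hneK : K' ≠ K0 := by
        rintro rfl
        exact hy'K0 hy'K'
      have hdis := d2 K' K0 hKc hK0 hneK
      have hK'sub := hcmpsub x K' hKc
      have hzK' : z ∉ K' := fun h => Set.disjoint_left.1 hdis h hzK0
      have hlt2 : K' ⊂ K := by
        refine ⟨?_, fun h => (hK'sub (h hx)).2 rfl⟩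
        intro a ha
        by_contra haK
        exact Set.disjoint_left.1 hdis ha (hZKsub ⟨(hK'sub ha).1, haK⟩)
      have h1 := hmin K' ⟨x, hxZ, hxY, hKc, by
        intro he
        exact hzK' (by rw [he]; exact ⟨hz, hzx⟩)⟩
      have h2 := Set.ncard_lt_ncard hlt2 (Set.toFinite K)
      omega
    -- (c)
    obtain ⟨z, hz, hzY, hZ'⟩ := hclaim
    have hzY' : z ∉ Y := fun h => hYZ z h hz
    have hBP2 : BP G C (Y ∪ {z}) (Z \ {z}) := by
      refine ⟨?_, ?_, ?_, hZ'⟩
      · rw [Set.union_assoc, Set.union_diff_cancel (by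
          rw [Set.singleton_subset_iff]; exact hz)]
        exact hBP.un
      · rw [Set.disjoint_union_left]
        exact ⟨Set.disjoint_of_subset_right Set.diff_subset hBP.dis, Set.disjoint_sdiff_right⟩
      · exact Pool.Agent.Helper51.AJ.con_union hBP.cy (Pool.Agent.Helper51.AJ.con_singleton G z)
          (Pool.Agent.Helper51.AJ.tch_symm hzY)
    have hlt : Y ⊂ Y ∪ {z} := by
      refine ⟨Set.subset_union_left, fun h => ?_⟩
      exact hzY' (h (Or.inr rfl))
    obtain ⟨t₁, ht₁, hZ1⟩ := hmax' _ _ hBP2 hlt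
    have hCeq : insert z (Y ∪ Z \ {z}) = C := by
      rw [← hBP2.un]
      ext a
      simp only [Set.mem_insert_iff, Set.mem_union, Set.mem_diff, Set.mem_singleton_iff]
      tauto
    have hZ'C : Z \ {z} ⊆ C := Set.diff_subset.trans hZC
    have hUC : Y ∪ Z \ {z} ⊆ C := Set.union_subset hYC hZ'C
    have hzU : z ∉ Y ∪ Z \ {z} := by
      rintro (h | h)
      · exact hzY' h
      · exact h.2 rfl
    have hU : ∀ b ∈ S, ∃ x ∈ Y ∪ Z \ {z}, ∃ w ∈ S, w ≠ b ∧ G.Adj x w := by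
      intro b hb
      obtain ⟨x, hx, w, hwU, hwz, hwb, hxw⟩ := cmp6 (Y ∪ Z \ {z})
        (Set.disjoint_of_subset_left hUC hCS) (hYne.mono Set.subset_union_left) z b hzU
        (fun h => hSC b hb (hUC h))
      refine ⟨x, hx, w, ?_, hwb, hxw⟩
      rcases hnb _ hUC x hx w hxw with h | h
      · exact h.1
      · rw [← hCeq] at h
        rcases h with h | h
        · exact absurd h hwz
        · exact absurd h hwU
    have ht0Y : Tch G {t₀} Y ∧ t₀ ≠ t₁ := by
      obtain ⟨x, hx, w, hwS, hwt, hxw⟩ := hU t₁ ht₁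
      rcases hx with hx | hx
      · have h1 : Tch G {w} Y := ⟨w, rfl, x, hx, hxw.symm⟩
        have h2 := hY0 w hwS h1
        subst h2
        exact ⟨h1, hwt⟩
      · exact absurd (hZ1 w hwS ⟨w, rfl, x, hx, hxw.symm⟩) hwt
    have ht1Z : Tch G {t₁} (Z \ {z}) := by
      obtain ⟨x, hx, w, hwS, hwt, hxw⟩ := hU t₀ ht₀
      rcases hx with hx | hx
      · exact absurd (hY0 w hwS ⟨w, rfl, x, hx, hxw.symm⟩) hwt
      · have h1 : Tch G {w} (Z \ {z}) := ⟨w, rfl, x, hx, hxw.symm⟩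
        have h2 := hZ1 w hwS h1
        subst h2
        exact h1
    obtain ⟨k, hk, hk0, hk1, -⟩ := third hS ht₀ ht₁ ht0Y.2
    have hzk : G.Adj z k := by
      obtain ⟨s, hs, x, hx, hsx⟩ := hTC k hk
      rw [Set.mem_singleton_iff] at hs
      subst hs
      rw [← hCeq] at hx
      rcases hx with hx | hx | hx
      · rw [← hx]; exact hsx.symm
      · exact absurd (hY0 s hk ⟨s, rfl, x, hx, hsx⟩) hk0
      · exact absurd (hZ1 s hk ⟨s, rfl, x, hx, hsx⟩) hk1
    have hzZ : Tch G {z} (Z \ {z}) := by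
      apply (hcon Z hBP.cz).1 {z} (by rw [Set.singleton_subset_iff]; exact hz)
        (Set.singleton_nonempty z)
      intro he
      obtain ⟨w, hw, hwz⟩ := hZ2 z hz
      rw [← he] at hw
      exact hwz hw
    refine ⟨z, Y, Z \ {z}, hzY', fun h => h.2 rfl, hCeq,
      Set.disjoint_of_subset_right Set.diff_subset hBP.dis, hBP.cy, hZ', ?_, hzY, hzZ,
      t₀, ht₀, t₁, ht₁, k, hk, ht0Y.2, hk1.symm, hk0.symm, ht0Y.1, ht1Z, hzk⟩
    obtain ⟨x, hx, w, hw, hwz, hxw⟩ := hleaveY z hz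
    exact ⟨x, hx, w, ⟨hw, hwz⟩, hxw⟩

end Pool.Agent.Helper23.TS
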